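import Pool.Agent.X31.T5
import Pool.Agent.TH823.EL.PolyU
import Pool.Agent.TH823.EL.Near

/-!
# Elliott's conjecture for functions close to a constant on the primes: all tuples of integers within `N ^ δ` of
# the values of real powers and generalised polynomials at integers with missing digits

`f i(t) = ∑ u_x t ^ x` is an arbitrary finite real combination of real powers of `t` whose largest exponent `c i > 0` is
not an integer (for instance `t ^ {3/2}`, or `t ^ {1/10}`), `C i` is the set of the integers with `m i` digits in base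
`b i` whose digit at `(b i) ^ j` is in `𝒟 i j`, where the sets `𝒟 i j` of allowed digits are arbitrary with at least TWO
elements (for instance: the integers with the decimal digits `0` and `1` only), and `M i` is an arbitrary subset of `C i`
with at least `#(C i) / N ^ δ` elements. The values considered are `b₀ + θ f(n)`.
For all but a proportion `N ^ (-δ)` of the tuples `q` with `q i ∈ M i`, ALL tuples `s` of integers within `N ^ δ` of the
values at the `q i` satisfy `|∑ n ≤ X, ∏ i, g i (a i * n + s i)| ≤ ε N` for all `a i ≤ A` and all `X ≤ N`, where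
`g 1, ..., g r` are bounded by `1`, one of them is multiplicative and close to a constant `w₀ ≠ 1` on the primes, and the
others are arbitrary.

The minimal real additive energy of these values is from `Pool.Agent.X31.R1` - `R3` (in this run); the theorem on
families of small energy (`Pool.Agent.TH823.EL.all_scales_E`), the definitions `ext`, `primes`, `root`, `Near` and
`NonExceptional`, and the choice of the constants are from the starting files (`MP_0c9a68_nt.PowerSavingNearConstant`).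
From Mathlib: `DirichletCharacter ℂ q`: the Dirichlet characters of modulus `q`; `Finset.Icc 1 X`: the integers `n`
with `1 ≤ n ≤ X`.
-/

set_option autoImplicit false

namespace Pool.Agent.Results.MP_0c9a68_nt.PowerTuples

open Finset

/-- the integers `0 ≤ n < b ^ m` whose digit at `b ^ j` in base `b` is in `𝒟 j`, for all `j < m` -/
def Digits (b : ℕ) (𝒟 : ℕ → Finset ℕ) (m : ℕ) : Finset ℕ :=
  (range (b ^ m)).filter (fun n => ∀ j < m, n / b ^ j % b ∈ 𝒟 j)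

/-- the generalised polynomial with the exponents `x ∈ F` and the coefficients `u x` -/
noncomputable def f (F : Finset ℝ) (u : ℝ → ℝ) (t : ℝ) : ℝ := ∑ x ∈ F, u x * t ^ x

/-- `M` is a subset with at least `#(Digits b 𝒟 m) / N ^ δ` elements of the set `Digits b 𝒟 m`, where all sets `𝒟 j`
of allowed digits have at least two elements; the number `θ` is at most `N ^ δ` and at least
`N / (b ^ (c m) N ^ δ)` in absolute value, and `|b₀ + θ f(n)| ≤ N` for all `n ∈ M`. -/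
def Fam (b : ℕ) (F : Finset ℝ) (u : ℝ → ℝ) (c : ℝ) (N m : ℕ) (δ : ℝ) (𝒟 : ℕ → Finset ℕ) (θ b₀ : ℝ) (M : Finset ℕ) : Prop :=
  (∀ j, 𝒟 j ⊆ range b ∧ 2 ≤ (𝒟 j).card) ∧
  |θ| ≤ (N : ℝ) ^ δ ∧ (N : ℝ) / (N : ℝ) ^ δ ≤ |θ| * ((b : ℝ) ^ m) ^ c ∧
  M ⊆ Digits b 𝒟 m ∧ ((Digits b 𝒟 m).card : ℝ) / (N : ℝ) ^ δ ≤ M.card ∧ ∀ n ∈ M, |b₀ + θ * f F u n| ≤ N

/-- The function `f` on the positive integers as a function on the integers, `0` at the integers `m ≤ 0`. -/
noncomputable def ext (f : ℕ → ℂ) (m : ℤ) : ℂ := if 1 ≤ m then f m.toNat else 0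

/-- The primes `p` with `y < p ≤ z`. -/
def primes (y z : ℕ) : Finset ℕ := (Ioc y z).filter Nat.Prime

/-- The integer part of `N ^ (1 / (2 D))`. -/
noncomputable def root (D N : ℕ) : ℕ := ⌊(N : ℝ) ^ (1 / (2 * D : ℝ))⌋₊

/-- At the scale `N`, with `Q = root D N`: `f (p n) = f p * f n` for all the primes `p` with `Q ^ 6 < p ≤ Q ^ D` and
all the `n` not divisible by `p` (for example `f` multiplicative), and `f p` is within `θ` of `w₀` on average over
the primes `p` with `Q ^ 6 < p ≤ Q ^ (6 E)`, with the weights `1 / p`. -/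
def Near (w₀ : ℂ) (θ : ℝ) (E D N : ℕ) (f : ℕ → ℂ) : Prop :=
  (∀ p n : ℕ, p.Prime → root D N ^ 6 < p → p ≤ root D N ^ D → ¬ p ∣ n → f (p * n) = f p * f n) ∧
    ∑ p ∈ primes (root D N ^ 6) (root D N ^ (6 * E)), ‖f p - w₀‖ / p ≤
      θ * ∑ p ∈ primes (root D N ^ 6) (root D N ^ (6 * E)), 1 / (p : ℝ)

/-- The scale `N` is not exceptional, with `Q = root D N`: no real nonprincipal character of modulus `q ≤ Q` has
`∑ χ(p) / p < - (3 / 5) ∑ 1 / p` over the primes `p` with `Q ^ 6 < p ≤ Q ^ (6 E)`. -/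
def NonExceptional (E D N : ℕ) : Prop :=
  ∀ q : ℕ, 1 ≤ q → q ≤ root D N → ∀ χ : DirichletCharacter ℂ q, χ ≠ 1 → χ ^ 2 = 1 →
    -(3 / 5) * ∑ p ∈ primes (root D N ^ 6) (root D N ^ (6 * E)), 1 / (p : ℝ) ≤
      ∑ p ∈ primes (root D N ^ 6) (root D N ^ (6 * E)), (χ (p : ZMod q)).re / p

/-- The tuple `s` is good at the scale `N`: `|∑ n ≤ X, ∏ i, g i (a i * n + s i)| ≤ ε N` for all `a i ≤ A` and all
`X ≤ N`. -/
def Good {r : ℕ} (A : ℕ) (ε : ℝ) (N : ℕ) (g : Fin r → ℕ → ℂ) (s : Fin r → ℤ) : Prop :=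
  ∀ a : Fin r → ℕ, (∀ i, 1 ≤ a i ∧ a i ≤ A) → ∀ X : ℕ, X ≤ N →
    ‖∑ n ∈ Icc 1 X, ∏ i, ext (g i) (a i * n + s i)‖ ≤ ε * N

/-- At the scale `N`: for all numbers `m i` of digits, ALL sets `𝒟 i j` of allowed digits, all real `θ i`, `b₀ i` and
all sets `M i` with `Fam (b i) (F i) (u i) (c i) N (m i) δ (𝒟 i) (θ i) (b₀ i) (M i)`: for all the tuples `q` with `q i ∈ M i` with at most `∏ #(M i) / N ^ δ`
exceptions, ALL the tuples `s` of integers with `|s i - (b₀ i + θ i * f (F i) (u i) (q i))| ≤ N ^ δ` are good. -/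
def Tuples (A : ℕ) {r : ℕ} (b : Fin r → ℕ) (F : Fin r → Finset ℝ) (u : Fin r → ℝ → ℝ) (c : Fin r → ℝ) (ε δ : ℝ) (N : ℕ) (g : Fin r → ℕ → ℂ) : Prop :=
  ∀ (m : Fin r → ℕ) (𝒟 : Fin r → ℕ → Finset ℕ) (θ b₀ : Fin r → ℝ) (M : Fin r → Finset ℕ),
    (∀ i, Fam (b i) (F i) (u i) (c i) N (m i) δ (𝒟 i) (θ i) (b₀ i) (M i)) →
    ∃ E : Finset (Fin r → ℕ), (E.card : ℝ) ≤ (∏ i, ((M i).card : ℝ)) * (N : ℝ) ^ (-δ) ∧
      ∀ q : Fin r → ℕ, (∀ i, q i ∈ M i) → q ∉ E →
        ∀ s : Fin r → ℤ, (∀ i, |(s i : ℝ) - (b₀ i + θ i * f (F i) (u i) (q i))| ≤ (N : ℝ) ^ δ) → Good A ε N g s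

lemma dat_of {b : ℕ} {F : Finset ℝ} {u : ℝ → ℝ} {c : ℝ} {N m : ℕ} {δ : ℝ} {𝒟 : ℕ → Finset ℕ} {θ b₀ : ℝ}
    {M : Finset ℕ} (h : Fam b F u c N m δ 𝒟 θ b₀ M) :
    Pool.Agent.X31.CT.Dat3T b c ((N : ℝ) ^ δ) N m 𝒟 θ b₀ (fun n => Pool.Agent.X31.gp F u n) M :=
  ⟨h.1, h.2.1, h.2.2.1, h.2.2.2.1, h.2.2.2.2.1, h.2.2.2.2.2⟩

lemma root_pow {D Q : ℕ} (hD : 1 ≤ D) : root D (Q ^ (2 * D)) = Q := by
  unfold root
  have hD0 : (0 : ℝ) < D := by exact_mod_cast hD
  have h1 : (((Q ^ (2 * D) : ℕ) : ℝ)) ^ (1 / (2 * D : ℝ)) = Q := by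
    push_cast
    rw [← Real.rpow_natCast, ← Real.rpow_mul (Nat.cast_nonneg Q)]
    push_cast
    rw [mul_one_div_cancel (by positivity), Real.rpow_one]
  rw [h1, Nat.floor_natCast]

lemma ext_norm {f : ℕ → ℂ} (hf : ∀ n, ‖f n‖ ≤ 1) (m : ℤ) : ‖ext f m‖ ≤ 1 := by
  unfold ext
  split_ifs
  · exact hf _
  · rw [norm_zero]; exact zero_le_one

/-- Let `w₀ ≠ 1` be a complex number with `|w₀| ≤ 1`. Let `b i ≥ 2` be integers and let `F i` be finite sets of real numbers whose maxima `c i > 0` are NOT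
integers, `u i (c i) ≠ 0` (`i < r`). Let `A` be an integer and
`ε > 0`. There are `E ≥ 1`, `D ≥ 6 E + 2`, `θ > 0` and `δ > 0` such that, for all large `N`, with
the additional assumption that the scale `N` is not exceptional if `w₀ = -1`: if `g 1, ..., g r` are arbitrary
functions bounded by `1`, one of which is multiplicative (with respect to the primes between `N ^ (3 / D)` and
`N ^ (1 / 2)`) and within `θ` of `w₀` on average on the primes between `N ^ (3 / D)` and `N ^ (3 E / D)`, then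
`Tuples A b F u c ε δ N g` holds: for all numbers `m i` of digits, ALL sets `𝒟 i j` of allowed digits, all real `θ i`, `b₀ i` and
all sets `M i` with `Fam (b i) (F i) (u i) (c i) N (m i) δ (𝒟 i) (θ i) (b₀ i) (M i)`, for all the tuples `q` with `q i ∈ M i` but
`∏ #(M i) / N ^ δ`, ALL tuples `s` of integers with `|s i - (b₀ i + θ i * f (F i) (u i) (q i))| ≤ N ^ δ` satisfy
`|∑ n ≤ X, ∏ i, g i (a i * n + s i)| ≤ ε N` for all `a i ≤ A` and all `X ≤ N`.
There are arbitrarily large scales that are not exceptional. -/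
theorem result (w₀ : ℂ) (hw₀ : ‖w₀‖ ≤ 1) (hw₁ : w₀ ≠ 1) (A r : ℕ) (b : Fin r → ℕ) (F : Fin r → Finset ℝ) (u : Fin r → ℝ → ℝ) (c : Fin r → ℝ) (hb : ∀ i, 2 ≤ b i)
    (hF : ∀ i, c i ∈ F i ∧ (∀ x ∈ F i, x ≤ c i) ∧ u i (c i) ≠ 0 ∧ 0 < c i ∧ ∀ j : ℕ, c i ≠ j)
    (ε : ℝ) (hε : 0 < ε) :
    ∃ E D : ℕ, 1 ≤ E ∧ 6 * E + 2 ≤ D ∧ ∃ θ δ : ℝ, 0 < θ ∧ 0 < δ ∧
      (∃ N₀ : ℕ, ∀ N : ℕ, N₀ ≤ N → (w₀ = -1 → NonExceptional E D N) →
        ∀ g : Fin r → ℕ → ℂ, (∀ i n, ‖g i n‖ ≤ 1) → (∃ j, Near w₀ θ E D N (g j)) →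
          Tuples A b F u c ε δ N g) ∧
      ∀ N₁ : ℕ, ∃ N : ℕ, N₁ ≤ N ∧ NonExceptional E D N := by
  classical
  obtain ⟨E', HS⟩ : ∃ E' : Fin r → ℕ, ∀ i,
      Pool.Agent.X31.SchT (E' i) (Pool.Agent.X31.QRp (b i) (F i) (u i) (c i)) :=
    ⟨fun _ => 0, fun i => Pool.Agent.X31.SchT_rp (hb i) (F i) (u i) (c i) (hF i).1 (hF i).2.1 (hF i).2.2.1
      (hF i).2.2.2.1 (hF i).2.2.2.2⟩
  -- the constant `c` and the sufficient condition for the hypothesis on the primes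
  obtain ⟨c, hc, hc1, θ, hθ, E00, hnp⟩ : ∃ c : ℝ, 0 < c ∧ c ≤ 1 ∧ ∃ θ : ℝ, 0 < θ ∧ ∃ E00 : ℕ, ∀ E : ℕ, E00 ≤ E →
      ∀ Q : ℕ, 14 ≤ Q → (w₀ = -1 → Pool.Agent.TH823.PS.NE 6 E Q) → ∀ w : ℕ → ℂ,
      ∑ p ∈ primes (Q ^ 6) (Q ^ (6 * E)), ‖w p - w₀‖ / p ≤ θ * ∑ p ∈ primes (Q ^ 6) (Q ^ (6 * E)), 1 / (p : ℝ) →
      Pool.Agent.TH823.EL.NPW c Q (Q ^ 6) (Q ^ (6 * E)) w := by
    by_cases hneg : w₀ = -1
    · obtain ⟨E0, h⟩ := Pool.Agent.TH823.EL.npw_neg
      refine ⟨1 / 40, by norm_num, by norm_num, 1 / 40, by norm_num, E0, fun E hE Q hQ hNE w hw => ?_⟩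
      refine h E hE Q hQ (hNE hneg) w ?_
      simp only [hneg, sub_neg_eq_add] at hw
      exact hw
    · obtain ⟨c, hc, hc1, hcw⟩ : ∃ c : ℝ, 0 < c ∧ c ≤ 1 / 338 ∧
          ((‖w₀‖ = 1 ∧ |w₀.re| ≤ 1 - c) ∨ ‖w₀‖ ≤ 1 - c) := by
        rcases eq_or_lt_of_le hw₀ with h1 | h1
        · have h2 : |w₀.re| < 1 := by
            have h3 := Complex.abs_re_le_norm w₀
            rw [h1] at h3
            refine lt_of_le_of_ne h3 fun h4 => ?_
            have h5 : w₀.re ^ 2 + w₀.im ^ 2 = 1 := by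
              have := Complex.normSq_eq_norm_sq w₀
              rw [Complex.normSq_apply, h1] at this
              nlinarith
            have h6 : w₀.re ^ 2 = 1 := by rw [← sq_abs, h4, one_pow]
            have h7 : w₀.im = 0 := by
              have : w₀.im ^ 2 = 0 := by linarith
              exact pow_eq_zero_iff two_ne_zero |>.1 this
            have h8 : (w₀.re - 1) * (w₀.re + 1) = 0 := by linarith [sq w₀.re]
            rcases mul_eq_zero.1 h8 with h9 | h9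
            · exact hw₁ (Complex.ext (by simpa using sub_eq_zero.1 h9) (by simpa using h7))
            · exact hneg (Complex.ext (by simpa using eq_neg_of_add_eq_zero_left h9) (by simpa using h7))
          refine ⟨min (1 / 338) (1 - |w₀.re|), lt_min (by norm_num) (by linarith), min_le_left _ _,
            Or.inl ⟨h1, ?_⟩⟩
          have := min_le_right (1 / 338 : ℝ) (1 - |w₀.re|)
          linarith
        · refine ⟨min (1 / 338) (1 - ‖w₀‖), lt_min (by norm_num) (by linarith), min_le_left _ _, Or.inr ?_⟩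
          have := min_le_right (1 / 338 : ℝ) (1 - ‖w₀‖)
          linarith
      obtain ⟨E0, h⟩ := Pool.Agent.TH823.EL.npw_near c hc hc1
      exact ⟨c / 4, by positivity, by linarith, c / 4, by positivity, E0, fun E hE Q hQ _ w hw =>
        h E hE Q hQ w₀ hcw w hw⟩
  obtain ⟨p, hp, Hall⟩ := Pool.Agent.X31.SchT.all HS (fun _ => 0)
  obtain ⟨E01, hgs⟩ := Pool.Agent.TH823.PS.good_scales
  obtain ⟨τ, hτ, E, D, hE, hD, δ₀, hδ₀, Q0, hQ03, hQ0⟩ := Pool.Agent.TH823.EL.all_scales_E (E00 + E01) c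
    hc hc1 (A + 1 + 2) 1 p (ι := Fin 0) (fun i => i.elim0) (fun i => i.elim0) hε
  obtain ⟨δ, hδ, Hall⟩ := Hall (A + 1) (by omega) ε δ₀ hδ₀
  obtain ⟨N₁, Hall⟩ := Hall δ hδ le_rfl
  obtain ⟨N₀, hN₀⟩ := Pool.Agent.TH823.EL.scale_root D (by omega) (Q0 + 14)
  have e1 : ∀ᶠ N : ℕ in Filter.atTop, ((Fintype.card (Fin r → Fin A) : ℕ) : ℝ) ≤ (N : ℝ) ^ δ := by
    have e3 : Filter.Tendsto (fun x : ℝ => x ^ δ) Filter.atTop Filter.atTop := tendsto_rpow_atTop hδ
    exact (e3.comp tendsto_natCast_atTop_atTop).eventually_ge_atTop _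
  obtain ⟨N₂, hN₂⟩ := Filter.eventually_atTop.1 e1
  refine ⟨E, D, by omega, hD, θ, δ, hθ, hδ, ⟨N₀ + N₁ + N₂, fun N hN hex g hg hj => ?_⟩, fun N₁ => ?_⟩
  · obtain ⟨j, hmul, hnear⟩ := hj
    obtain ⟨h1, h2, h3⟩ := hN₀ N (by omega)
    have hQ : ⌊(N : ℝ) ^ (1 / (2 * D : ℝ))⌋₊ = root D N := rfl
    rw [hQ] at h1 h2 h3
    have hNE : w₀ = -1 → Pool.Agent.TH823.PS.NE 6 E (root D N) := by
      intro h4 q _ hq χ hχ1 hχ2
      have h5 := hex h4 q (Nat.pos_of_ne_zero (NeZero.ne q)) hq χ hχ1 hχ2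
      refine le_trans h5 (le_of_eq ?_)
      apply sum_congr rfl
      intro p _
      rw [Pool.Agent.TH823.PS.rt_zero]
    have hwin : Pool.Agent.TH823.EL.Win (root D N ^ 6) (root D N ^ D) 0 (g j) (g j) :=
      ⟨hg j, hg j, fun p n hp h4 h5 h6 => by rw [hmul p n hp h4 h5 h6, sub_self, norm_zero]⟩
    have h4 := hQ0 (root D N) (by omega) (g j) (g j) 0 le_rfl hτ.le hwin
      (hnp E (by omega) (root D N) (by omega) hNE (g j) hnear) N h2 h3
    intro m 𝒟 θ b₀ M hfam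
    obtain ⟨e⟩ : Nonempty (Fin (Fintype.card (Fin r → Fin A)) ≃ (Fin r → Fin A)) := ⟨(Fintype.equivFin _).symm⟩
    obtain ⟨Ex, hE1, hE2⟩ := Hall N (by omega) M (fun i n => (b₀ i + θ i * f (F i) (u i) n)) (fun i => ⟨m i, 𝒟 i, θ i, b₀ i, dat_of (hfam i), fun _ => rfl⟩)
      (Fintype.card (Fin r → Fin A)) (hN₂ N (by omega)) (fun _ => g j) (fun _ => h4.1)
      (fun l => (e l j).1 + 1) (fun l => by omega) (fun _ => j)
      (fun l s n => ∏ i ∈ univ.erase j, ext (g i) (((e l i).1 + 1 : ℕ) * n + s i)) (by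
        intro l s n
        rw [norm_prod]
        exact prod_le_one (fun _ _ => norm_nonneg _) fun i _ => ext_norm (hg i) _) (by
        intro l s s' n hss
        apply prod_congr rfl
        intro i hi
        rw [hss i (mem_erase.1 hi).1])
    refine ⟨Ex, hE1, fun q hq hqE s hs a ha X hX => ?_⟩
    obtain ⟨l, hl⟩ : ∃ l, e l = fun i => ⟨a i - 1, by have := ha i; omega⟩ := e.surjective _
    have h1 := hE2 q hq hqE s hs l X (by
      have : (e l j).1 + 1 ≤ A + 1 := by have := (e l j).2; omega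
      exact Nat.mul_le_mul this hX)
    rw [hl] at h1
    have ea : ∀ i, a i - 1 + 1 = a i := fun i => by have := ha i; omega
    simp only [ea] at h1
    refine le_trans (le_of_eq ?_) h1
    congr 1
    apply sum_congr rfl
    intro n _
    rw [← mul_prod_erase univ (fun i => ext (g i) ((a i : ℤ) * n + s i)) (mem_univ j), mul_comm]
    rfl
  · obtain ⟨Q, hQ, hNE⟩ := hgs E (by omega) 6 (by norm_num) (N₁ + 1)
    refine ⟨Q ^ (2 * D), ?_, ?_⟩
    · have : Q ≤ Q ^ (2 * D) := Nat.le_self_pow (by omega) Q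
      omega
    · intro q hq1 hq χ hχ1 hχ2
      rw [root_pow (by omega)] at hq ⊢
      have : NeZero q := ⟨by omega⟩
      refine le_trans (hNE q hq χ hχ1 hχ2) (le_of_eq ?_)
      apply sum_congr rfl
      intro p _
      rw [Pool.Agent.TH823.PS.rt_zero]

end Pool.Agent.Results.MP_0c9a68_nt.PowerTuples
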