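import Pool.Agent.X22.AllLin

/-!
# Elliott's conjecture for almost all tuples of linear forms and of polynomials: one factor is the Liouville or the
Moebius function, the others are arbitrary

The second moment over the coefficients of one polynomial with an arbitrary weight (`Pool.Agent.TH892.RT`, starting
files) is used with the values at the other random polynomials as a part of the weight. It rests on the theorem of
Matomäki, Radziwiłł and Tao on exponential sums over short windows (`Pool.Agent.TH823.MRS`, starting files).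
-/

set_option autoImplicit false

namespace Pool.Agent.Results.MP_0c9a68_nt.RandomFormsArbitraryRest

open Finset

/-- the Liouville function `(-1)^Ω(|u|)` of an integer `u ≠ 0` (its value at `0` is `1`) -/
noncomputable def liouville (u : ℤ) : ℂ := (-1) ^ ArithmeticFunction.cardFactors u.natAbs

/-- the Moebius function `μ(|u|)` of an integer `u ≠ 0` (its value at `0` is `0`) -/
noncomputable def moebius (u : ℤ) : ℂ := ((ArithmeticFunction.moebius u.natAbs : ℤ) : ℂ)

/-- all `k`-tuples of pairs `(a_i, b_i)` with `1 ≤ a_i ≤ N` and `0 ≤ b_i ≤ N` -/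
def pairs (k N : ℕ) : Finset (Fin k → ℕ × ℕ) := Fintype.piFinset (fun _ => Icc 1 N ×ˢ range (N + 1))

/-- all `k`-tuples of vectors `(a_(i,0), ..., a_(i,d))` of integers of absolute value at most `H` -/
noncomputable def box (k d H : ℕ) : Finset (Fin k → Fin (d + 1) → ℤ) :=
  Fintype.piFinset (fun _ => Fintype.piFinset (fun _ => Icc (-(H : ℤ)) H))

/-- **Theorem.** (1) For all `k`, `L` and `ε > 0` there are `x₀` and `δ > 0` such that, whenever `x₀ ≤ x ≤ δ N`, the
following holds for all weights `|w l n| ≤ 1` and all functions `g l i : ℤ → ℂ` (`l < L`, `i < k`) bounded by `1` such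
that for every `l` one of the functions `g l 1, ..., g l k` is the Liouville or the Moebius function, while the others
are arbitrary (for example arbitrary bounded multiplicative functions of the absolute value): all but `ε (number)` of
the `k`-tuples `((a_i, b_i))` with `1 ≤ a_i ≤ N`, `0 ≤ b_i ≤ N` satisfy
`|∑_{n ≤ y} w l n * ∏_i g l i (a_i n + b_i)| ≤ ε x` for all `l < L` and all `y ≤ x`.

(2) The same for `k`-tuples of polynomials of degree at most `d ≥ 1` all of whose coefficients are at most `H` in
absolute value, to which arbitrary integers `c_i(n)` with `|c_i(n)| ≤ C H n^d` are added (so the centre of the box of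
coefficients may be any point of height at most `C H`, and the polynomials may be monic of degree `d + 1`), in the range
`x₀ ≤ x ≤ δ H`. -/
theorem result :
    (∀ (k L : ℕ) (ε : ℝ), 0 < ε → ∃ (x₀ : ℕ) (δ : ℝ), 0 < δ ∧ ∀ N x : ℕ, x₀ ≤ x → (x : ℝ) ≤ δ * N →
      ∀ (w : Fin L → ℕ → ℂ) (g : Fin L → Fin k → ℤ → ℂ), (∀ l n, ‖w l n‖ ≤ 1) → (∀ l i u, ‖g l i u‖ ≤ 1) →
      (∀ l, ∃ i, g l i = liouville ∨ g l i = moebius) →
      ∃ E ⊆ pairs k N, (E.card : ℝ) ≤ ε * (pairs k N).card ∧ ∀ p ∈ pairs k N, p ∉ E → ∀ y ≤ x, ∀ l,
        ‖∑ n ∈ Icc 1 y, w l n * ∏ i, g l i ((p i).1 * n + (p i).2)‖ ≤ ε * x) ∧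
    (∀ (k L d : ℕ), 1 ≤ d → ∀ C ε : ℝ, 0 < ε → ∃ (x₀ : ℕ) (δ : ℝ), 0 < δ ∧ ∀ H x : ℕ, x₀ ≤ x → (x : ℝ) ≤ δ * H →
      ∀ c : Fin k → ℕ → ℤ, (∀ i n, 1 ≤ n → n ≤ x → |(c i n : ℝ)| ≤ C * H * n ^ d) →
      ∀ (w : Fin L → ℕ → ℂ) (g : Fin L → Fin k → ℤ → ℂ), (∀ l n, ‖w l n‖ ≤ 1) → (∀ l i u, ‖g l i u‖ ≤ 1) →
      (∀ l, ∃ i, g l i = liouville ∨ g l i = moebius) →
      ∃ E ⊆ box k d H, (E.card : ℝ) ≤ ε * (box k d H).card ∧ ∀ a ∈ box k d H, a ∉ E → ∀ y ≤ x, ∀ l,
        ‖∑ n ∈ Icc 1 y, w l n * ∏ i, g l i (∑ j, a i j * (n : ℤ) ^ (j : ℕ) + c i n)‖ ≤ ε * x) := by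
  classical
  -- the two functions
  have hb : ∀ b : Bool, ∀ n, ‖(if b then Pool.Agent.H373R2.T7.liR n else
      ((ArithmeticFunction.moebius n : ℤ) : ℂ))‖ ≤ 1 := by
    intro b n
    cases b
    · simpa using Pool.Agent.X22.MuRT.mu_le n
    · simpa using Pool.Agent.H373R2.T7.liR_norm n
  have hE : ∀ b : Bool, Pool.Agent.TH823.MRS.ExpoSmall (fun n => if b then Pool.Agent.H373R2.T7.liR n else
      ((ArithmeticFunction.moebius n : ℤ) : ℂ)) := by
    intro b
    cases b
    · have h1 : (fun n => if false = true then Pool.Agent.H373R2.T7.liR n else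
          ((ArithmeticFunction.moebius n : ℤ) : ℂ)) = fun n => ((ArithmeticFunction.moebius n : ℤ) : ℂ) := by
        funext n
        simp
      rw [h1]
      exact Pool.Agent.TH823.MRS.expo_mob
    · have h1 : (fun n => if true = true then Pool.Agent.H373R2.T7.liR n else
          ((ArithmeticFunction.moebius n : ℤ) : ℂ)) = Pool.Agent.H373R2.T7.liR := by
        funext n
        simp
      rw [h1]
      exact Pool.Agent.TH892.RT.liR_E
  have hzf : ∀ (b : Bool) (u : ℤ), Pool.Agent.TH892.RT.hz (fun n => if b then Pool.Agent.H373R2.T7.liR n else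
      ((ArithmeticFunction.moebius n : ℤ) : ℂ)) u = if b then liouville u else moebius u := by
    intro b u
    cases b
    · simp [Pool.Agent.TH892.RT.hz, moebius]
    · simp [Pool.Agent.TH892.RT.hz, liouville, Pool.Agent.H373R2.T7.liR]
  have hsel : ∀ (k L : ℕ) (g : Fin L → Fin k → ℤ → ℂ), (∀ l, ∃ i, g l i = liouville ∨ g l i = moebius) →
      ∃ (i0 : Fin L → Fin k) (b : Fin L → Bool), ∀ l, ∀ u, g l (i0 l) u = if b l then liouville u else moebius u := by
    intro k L g hg
    choose i0 hi0 using hg
    refine ⟨i0, fun l => if g l (i0 l) = liouville then true else false, fun l u => ?_⟩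
    by_cases h : g l (i0 l) = liouville
    · simp [h]
    · rcases hi0 l with h1 | h1
      · exact absurd h1 h
      · simp only [h, if_false, Bool.false_eq_true]
        rw [h1]
  constructor
  · intro k L ε hε
    have H := fun b : Bool => Pool.Agent.X22.MuRT.all_lin (ι := Fin L) _ (hb b) (hE b) k (ε / 2) (by positivity)
    choose x₀ δ hδ hS using H
    refine ⟨max (x₀ true) (x₀ false), min (δ true) (δ false), lt_min (hδ _) (hδ _), fun N x hx hxN w g hw hg hgl => ?_⟩
    obtain ⟨i0, b, hi0⟩ := hsel k L g hgl
    have hN0 : (0 : ℝ) ≤ N := Nat.cast_nonneg N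
    have hxb : ∀ c, x₀ c ≤ x := by
      intro c
      cases c
      · exact (le_max_right _ _).trans hx
      · exact (le_max_left _ _).trans hx
    have hxNb : ∀ c, (x : ℝ) ≤ δ c * N := by
      intro c
      refine hxN.trans (mul_le_mul_of_nonneg_right ?_ hN0)
      cases c
      · exact min_le_right _ _
      · exact min_le_left _ _
    have h1 := fun c : Bool => hS c N x (hxb c) (hxNb c) i0
      (fun l p n => if b l = c then w l n * ∏ i ∈ univ.erase (i0 l), g l i ((p i).1 * n + (p i).2) else 0) (by
        intro l p n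
        split_ifs
        · rw [norm_mul, norm_prod]
          exact mul_le_one₀ (hw l n) (prod_nonneg fun _ _ => norm_nonneg _)
            (prod_le_one (fun _ _ => norm_nonneg _) (fun _ _ => hg _ _ _))
        · simp) (by
        intro l p v n
        split_ifs
        · congr 1
          apply prod_congr rfl
          intro i hi
          rw [Function.update_of_ne (ne_of_mem_erase hi)]
        · rfl)
    choose E hEs hEc hEg using h1
    refine ⟨E true ∪ E false, union_subset (hEs _) (hEs _), ?_, fun p hp hpE y hy l => ?_⟩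
    · calc ((E true ∪ E false).card : ℝ) ≤ ((E true).card : ℝ) + (E false).card := by exact_mod_cast card_union_le _ _
        _ ≤ ε / 2 * (pairs k N).card + ε / 2 * (pairs k N).card := add_le_add (hEc _) (hEc _)
        _ = _ := by ring
    · have hpE' : p ∉ E (b l) := by
        intro h
        apply hpE
        rw [mem_union]
        cases hb' : b l
        · rw [hb'] at h; exact Or.inr h
        · rw [hb'] at h; exact Or.inl h
      have h2 := hEg (b l) p hp hpE' y hy l
      have hx0 : (0 : ℝ) ≤ x := Nat.cast_nonneg x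
      refine le_trans (le_of_eq ?_) (h2.trans (mul_le_mul_of_nonneg_right (by linarith) hx0))
      congr 1
      apply sum_congr rfl
      intro n _
      rw [if_pos rfl, hzf, mul_assoc]
      congr 1
      rw [← hi0 l, mul_comm, mul_prod_erase univ (fun i => g l i ((p i).1 * n + (p i).2)) (mem_univ _)]
  · intro k L d hd C ε hε
    have H := fun b : Bool => Pool.Agent.X22.MuRT.all_gen (ι := Fin L) _ (hb b) (hE b) k d hd C (ε / 2) (by positivity)
    choose x₀ δ hδ hδ1 hS using H
    refine ⟨max (x₀ true) (x₀ false), min (δ true) (δ false), lt_min (hδ _) (hδ _),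
      fun N x hx hxN c hc w g hw hg hgl => ?_⟩
    obtain ⟨i0, b, hi0⟩ := hsel k L g hgl
    have hN0 : (0 : ℝ) ≤ N := Nat.cast_nonneg N
    have hxb : ∀ c, x₀ c ≤ x := by
      intro c
      cases c
      · exact (le_max_right _ _).trans hx
      · exact (le_max_left _ _).trans hx
    have hxNb : ∀ c, (x : ℝ) ≤ δ c * N := by
      intro c
      refine hxN.trans (mul_le_mul_of_nonneg_right ?_ hN0)
      cases c
      · exact min_le_right _ _
      · exact min_le_left _ _
    have h1 := fun c' : Bool => hS c' N x (hxb c') (hxNb c') c hc i0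
      (fun l a n => if b l = c' then w l n * ∏ i ∈ univ.erase (i0 l), g l i (Pool.Agent.TH892.RT.pv (a i) n + c i n)
        else 0) (by
        intro l p n
        split_ifs
        · rw [norm_mul, norm_prod]
          exact mul_le_one₀ (hw l n) (prod_nonneg fun _ _ => norm_nonneg _)
            (prod_le_one (fun _ _ => norm_nonneg _) (fun _ _ => hg _ _ _))
        · simp) (by
        intro l p v n
        split_ifs
        · congr 1
          apply prod_congr rfl
          intro i hi
          rw [Function.update_of_ne (ne_of_mem_erase hi)]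
        · rfl)
    choose E hEs hEc hEg using h1
    refine ⟨E true ∪ E false, union_subset (hEs _) (hEs _), ?_, fun p hp hpE y hy l => ?_⟩
    · calc ((E true ∪ E false).card : ℝ) ≤ ((E true).card : ℝ) + (E false).card := by exact_mod_cast card_union_le _ _
        _ ≤ ε / 2 * (box k d N).card + ε / 2 * (box k d N).card := add_le_add (hEc _) (hEc _)
        _ = _ := by ring
    · have hpE' : p ∉ E (b l) := by
        intro h
        apply hpE
        rw [mem_union]
        cases hb' : b l
        · rw [hb'] at h; exact Or.inr h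
        · rw [hb'] at h; exact Or.inl h
      have h2 := hEg (b l) p hp hpE' y hy l
      have hx0 : (0 : ℝ) ≤ x := Nat.cast_nonneg x
      refine le_trans (le_of_eq ?_) (h2.trans (mul_le_mul_of_nonneg_right (by linarith) hx0))
      congr 1
      apply sum_congr rfl
      intro n _
      rw [if_pos rfl, hzf, mul_assoc]
      congr 1
      rw [← hi0 l, mul_comm, mul_prod_erase univ (fun i => g l i (Pool.Agent.TH892.RT.pv (p i) n + c i n)) (mem_univ _)]
      rfl

end Pool.Agent.Results.MP_0c9a68_nt.RandomFormsArbitraryRest
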